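import Pool.Agent.Y166.DP.Stm

/-! Project DP (helper166): lifts of derivations of the constants to a function field. -/

set_option autoImplicit false
set_option linter.unusedSectionVars false

namespace Pool.Agent.Y888.DP

open Polynomial FF Pool.Agent.W603.LV Pool.Agent.Y166.DP

theorem exists_lift {k K : Type} [Field k] [Field K] [Algebra k K] [CharZero k] (x : K)
    (hx : Transcendental k x)
    (hG : ∀ f : K, ∃ G : k[X][X], G ≠ 0 ∧ eval₂ ((aeval x : k[X] →ₐ[k] K) : k[X] →+* K) f G = 0)
    (D : Derivation ℤ k k) :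
    ∃ D' : Derivation ℤ K K, (∀ c : k, D' (algebraMap k K c) = algebraMap k K (D c)) ∧
      D' x = 0 := by
  have hinj : Function.Injective (aeval x : k[X] →ₐ[k] K) := transcendental_iff_injective.1 hx
  let _ : Algebra k[X] K := ((aeval x : k[X] →ₐ[k] K) : k[X] →+* K).toAlgebra
  have hst : IsScalarTower k k[X] K := IsScalarTower.of_algebraMap_eq' (by
    ext c
    simp [RingHom.algebraMap_toAlgebra])
  have hfs : FaithfulSMul k[X] K := (faithfulSMul_iff_algebraMap_injective _ _).2 hinj
  have halg : Algebra.IsAlgebraic k[X] K := by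
    constructor
    intro f
    obtain ⟨G, hG, hG'⟩ := hG f
    exact ⟨G, hG, hG'⟩
  let _ : Algebra (FractionRing k[X]) K := FractionRing.liftAlgebra k[X] K
  have hst2 : IsScalarTower k[X] (FractionRing k[X]) K := inferInstance
  have halg2 : Algebra.IsAlgebraic (FractionRing k[X]) K :=
    (IsFractionRing.comap_isAlgebraic_iff (A := k[X]) (K := FractionRing k[X]) (C := K)).1 halg
  have hchar : CharZero (FractionRing k[X]) := inferInstance
  have hsep : Algebra.IsSeparable (FractionRing k[X]) K := inferInstance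
  have h1 : Algebra.FormallyEtale (FractionRing k[X]) K := Algebra.FormallyEtale.of_isSeparable _ _
  have h2 : Algebra.FormallyEtale k[X] (FractionRing k[X]) :=
    Algebra.FormallyEtale.of_isLocalization (nonZeroDivisors k[X])
  have h3 : Algebra.FormallyEtale k[X] K := Algebra.FormallyEtale.comp k[X] (FractionRing k[X]) K
  let e := KaehlerDifferential.tensorKaehlerEquivOfFormallyEtale ℤ k[X] K
  let _ : Differential k := ⟨D⟩
  let d : Derivation ℤ k[X] K := (Algebra.linearMap k[X] K).compDer Differential.mapCoeffs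
  let l : Ω[k[X]⁄ℤ] →ₗ[k[X]] K := d.liftKaehlerDifferential
  let L : Ω[K⁄ℤ] →ₗ[K] K := (LinearMap.liftBaseChange K l).comp e.symm.toLinearMap
  let D' : Derivation ℤ K K := L.compDer (KaehlerDifferential.D ℤ K)
  have key : ∀ p : k[X], D' (algebraMap k[X] K p) = d p := by
    intro p
    change L (KaehlerDifferential.D ℤ K (algebraMap k[X] K p)) = d p
    change LinearMap.liftBaseChange K l (e.symm (KaehlerDifferential.D ℤ K _)) = d p
    rw [KaehlerDifferential.tensorKaehlerEquivOfFormallyEtale_symm_D_algebraMap]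
    simp [l]
  refine ⟨D', fun c => ?_, ?_⟩
  · rw [IsScalarTower.algebraMap_apply k k[X] K, key]
    change algebraMap k[X] K (Differential.mapCoeffs (algebraMap k k[X] c)) = _
    rw [Polynomial.algebraMap_eq, Differential.mapCoeffs_C]
    simp [RingHom.algebraMap_toAlgebra]
    rfl
  · have h5 : x = algebraMap k[X] K X := by
      simp [RingHom.algebraMap_toAlgebra]
    rw [h5, key]
    change algebraMap k[X] K (Differential.mapCoeffs X) = 0
    simp

theorem uniq {k K : Type} [Field k] [Field K] [Algebra k K] (x : K)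
    (hne : ∀ D : Derivation k K K, D x = 0 → D = 0) (D₁ D₂ : Derivation ℤ K K)
    (h : ∀ c : k, D₁ (algebraMap k K c) = D₂ (algebraMap k K c)) (hx : D₁ x = D₂ x) :
    D₁ = D₂ := by
  let E : Derivation ℤ K K := D₁ - D₂
  have hE : ∀ c : k, E (algebraMap k K c) = 0 := fun c => by
    change D₁ _ - D₂ _ = 0
    rw [h, sub_self]
  let l : K →ₗ[k] K :=
    { toFun := E
      map_add' := E.map_add
      map_smul' := fun c y => by
        rw [Algebra.smul_def, E.leibniz, hE, smul_zero, add_zero, RingHom.id_apply, smul_eq_mul,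
          ← Algebra.smul_def] }
  let E' : Derivation k K K := Derivation.mk' l (fun a b => E.leibniz a b)
  have h1 : E' = 0 := hne E' (by
    change D₁ x - D₂ x = 0
    rw [hx, sub_self])
  ext y
  have h2 : D₁ y - D₂ y = 0 := DFunLike.congr_fun h1 y
  exact sub_eq_zero.1 h2

theorem stmExt : StmExt := by
  intro k K _ _ _ _ _ x hx
  constructor
  · intro D
    obtain ⟨D', h1, h2⟩ := exists_lift x hx (fun f => by
      obtain ⟨G, hG, hG'⟩ := exists_poly hx f
      refine ⟨G, ?_, hG⟩
      rintro rfl
      apply hG'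
      rw [derivative_zero, map_zero]) D
    exact ⟨D', h1, h2⟩
  · intro D₁ D₂ h h'
    refine uniq x (fun D hD => ?_) D₁ D₂ h h'
    by_contra h0
    exact der_ne_zero h0 hx hD

end Pool.Agent.Y888.DP
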